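import Pool.Agent.H56.WP.Cr

/-!
# Pull backs of windows: one step, and the pull back along an orbit

`step`: a window `Φ` of level `K` with `f z' = Φ u0` is pulled back univalently along `z'`, or `z'` is near a critical point `c` with
`f c = Φ a` and there is the window over `Φ` around `c`. `orb`: iteration along an orbit up to the largest critical time.
-/

set_option autoImplicit false

open Filter Topology Metric Set MeasureTheory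

namespace Pool.Agent.H56.WP

open Pool.Agent.H56.UD Pool.Agent.H55.PB

variable {f : ℂ → ℂ} {U J P Cr : Set ℂ} {δ : ℝ} {η : ℂ → ℂ → ℂ} {ρ : ℝ}

theorem Cv.mono {K : ℕ} {y : ℂ} {ε θ ρ0 ρ1 : ℝ} {Φ v Φ' : ℂ → ℂ} {c a : ℂ} (h : Cv f U J P δ η ρ K θ y ε Φ ρ1 c a v Φ')
    (hρ : ρ0 ≤ ρ1) : Cv f U J P δ η ρ K θ y ε Φ ρ0 c a v Φ' :=
  ⟨h.ca, h.va, h.wd, h.val, h.z0, h.vd, h.vo, h.vs, fun x hx => h.ve x (hx.trans hρ)⟩

/-- the univalent case: a lift on a smaller disc extends -/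
theorem uni (h : PS f U J P Cr δ η ρ) {K : ℕ} {y : ℂ} {ε θ ρ' : ℝ} (hy : y ∈ J) (hε : ε ≤ δ) (hθ : 0 < θ)
    (hρ' : θ < ρ') (hρ1 : ρ' < 1) {Φ g0 : ℂ → ℂ} (hW : Wd f U J P δ K θ y ε Φ) (hg : DifferentiableOn ℂ g0 (ball 0 ρ'))
    (hg1 : ∀ v ∈ ball (0 : ℂ) ρ', g0 v ∈ U ∧ f (g0 v) = Φ v) :
    ∃ Φ' : ℂ → ℂ, Wd f U J P δ (K + 1) θ y ε Φ' ∧ (∀ v ∈ ball (0 : ℂ) 1, Φ' v ∈ U ∧ f (Φ' v) = Φ v) ∧
      ∀ v ∈ ball (0 : ℂ) ρ', Φ' v = g0 v := by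
  obtain ⟨Φ', hd, hv, hg0⟩ := glue h hy hε hθ hρ' hρ1 hW.diff hW.val hW.col hg hg1
  refine ⟨Φ', ⟨hd, ?_, ?_, ?_⟩, hv, hg0⟩
  · intro x hx x' hx' he
    refine hW.inj hx hx' ?_
    rw [← (hv x hx).2, ← (hv x' hx').2, he]
  · intro v hv'
    refine ⟨(dm_succ K _).2 ⟨(hv v hv').1, ?_⟩, ?_⟩
    · rw [(hv v hv').2]; exact (hW.val v hv').1
    · rw [Function.iterate_succ_apply, (hv v hv').2]; exact (hW.val v hv').2
  · intro v h1 h2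
    rw [Function.iterate_succ_apply, (hv v (mem_ball_zero_iff.2 h2)).2]
    exact hW.col v h1 h2

theorem step (h : PS f U J P Cr δ η ρ) {θ ρ0 : ℝ} (hθ : 0 < θ) (hθ1 : θ < 1) (h0 : 0 < ρ0) (h1 : ρ0 < 1) :
    ∃ ε0 : ℝ, 0 < ε0 ∧ ε0 ≤ δ ∧ ∀ (K : ℕ) (y : ℂ) (ε : ℝ) (Φ : ℂ → ℂ) (u0 z' : ℂ), y ∈ J → ε ≤ ε0 →
      Wd f U J P δ K θ y ε Φ → z' ∈ J → ‖u0‖ ≤ ρ0 → f z' = Φ u0 →
      (∃ Φ' : ℂ → ℂ, Wd f U J P δ (K + 1) θ y ε Φ' ∧ (∀ v ∈ ball (0 : ℂ) 1, Φ' v ∈ U ∧ f (Φ' v) = Φ v) ∧ Φ' u0 = z') ∨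
      ∃ c ∈ Cr, ∃ (a : ℂ) (v Φ' : ℂ → ℂ), Cv f U J P δ η ρ K θ y ε Φ ρ0 c a v Φ' ∧
        ∃ x0 : ℂ, ‖x0‖ < 1 ∧ bet a x0 = u0 ∧ Φ' x0 = z' := by
  have hdp := dth_pos hθ
  have hd1 := dth_lt hθ hθ1
  -- the radii
  set q : ℝ := Real.sqrt ((θ + ρ0) / (1 + θ * ρ0)) with hq
  have hqp : 0 < (θ + ρ0) / (1 + θ * ρ0) := by positivity
  have hq1 : q < 1 := by
    rw [hq, Real.sqrt_lt' one_pos, div_lt_iff₀ (by positivity)]
    nlinarith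
  set M : ℝ := max (max (dth θ) θ) (max ρ0 q) with hM
  have hM1 : M < 1 := max_lt (max_lt hd1 hθ1) (max_lt h1 hq1)
  have hMd : dth θ ≤ M := (le_max_left _ _).trans (le_max_left _ _)
  have hMθ : θ ≤ M := (le_max_right _ _).trans (le_max_left _ _)
  have hMρ : ρ0 ≤ M := (le_max_left _ _).trans (le_max_right _ _)
  have hMq : q ≤ M := (le_max_right _ _).trans (le_max_right _ _)
  set ρ' : ℝ := (M + 1) / 2 with hρ'
  have hρM : M < ρ' := by rw [hρ']; linarith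
  have hρ1 : ρ' < 1 := by rw [hρ']; linarith
  have hρp : 0 < ρ' := by linarith
  set t : ℝ := (θ + ρ' ^ 2) / (1 + θ * ρ' ^ 2) with ht
  have ht1 : t < 1 := by
    rw [ht, div_lt_one (by positivity)]
    have : ρ' ^ 2 < 1 := by nlinarith
    nlinarith
  set ρ3 : ℝ := max ρ' t with hρ3
  have hρ31 : ρ3 < 1 := max_lt hρ1 ht1
  have hρ30 : 0 < ρ3 := hρp.trans_le (le_max_left _ _)
  obtain ⟨δ1, hδ1, hδ1δ, hloc⟩ := h.loc
  obtain ⟨δ2, hδ2, hsh⟩ := sh h hρ30 hρ31 hδ1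
  refine ⟨min δ2 δ, lt_min hδ2 h.hδ, min_le_right _ _, ?_⟩
  intro K y ε Φ u0 z' hy hε hW hz' hu0 hfz
  have hεδ : ε ≤ δ := hε.trans (min_le_right _ _)
  have hu0M : ‖u0‖ < ρ' := by linarith
  have hu03 : u0 ∈ closedBall (0 : ℂ) ρ3 := mem_closedBall_zero_iff.2 (hu0M.le.trans (le_max_left _ _))
  have hfJ : f z' ∈ J := h.Jf _ hz'
  have hsmall : ∀ v ∈ closedBall (0 : ℂ) ρ3, Φ v ∈ ball (f z') δ1 := by
    intro v hv
    rw [mem_ball, dist_eq_norm, hfz]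
    refine hsh K Φ y hy hW.diff hW.inj (fun w hw => ⟨(hW.val w hw).1, ball_subset_ball (hε.trans (min_le_left _ _))
      (hW.val w hw).2⟩) ⟨u0, hu03, by rw [← hfz]; exact hfJ⟩ v hv u0 hu03
  have hsub : ball (0 : ℂ) ρ' ⊆ closedBall 0 ρ3 := fun v hv =>
    mem_closedBall_zero_iff.2 ((mem_ball_zero_iff.1 hv).le.trans (le_max_left _ _))
  have hsub1 : ball (0 : ℂ) ρ' ⊆ ball 0 1 := ball_subset_ball hρ1.le
  have hzU : z' ∈ U := h.JU hz'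
  rcases hloc (f z') hfJ z' hzU (mem_ball_self hδ1) with ⟨g, hgd, hg0, hg1⟩ | ⟨c, hc, hcb, w0, hw0, hw1⟩
  · left
    obtain ⟨Φ', hW', hv', hg'⟩ := uni h hy hεδ hθ (hMθ.trans_lt hρM) hρ1 hW (g0 := fun v => g (Φ v))
      (hgd.comp (hW.diff.mono hsub1) fun v hv => hsmall v (hsub hv))
      (fun v hv => hg1 _ (hsmall v (hsub hv)))
    refine ⟨Φ', hW', hv', ?_⟩
    rw [hg' u0 (mem_ball_zero_iff.2 hu0M), ← hfz, hg0]
  · obtain ⟨hηd, hηi, hη0, hηv⟩ := h.nf c hc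
    have hw2 : f z' = f c + w0 ^ 2 := by rw [← hw1]; exact (hηv w0 hw0).2
    have hsq : ∀ v ∈ closedBall (0 : ℂ) ρ3, ‖Φ v - f c‖ < ρ ^ 2 / 4 := fun v hv => by
      have := hcb (hsmall v hv)
      rwa [mem_ball, dist_eq_norm] at this
    by_cases hcr : f c ∈ Φ '' ball 0 1
    · right
      obtain ⟨a, ha, hav⟩ := hcr
      have haθ : ‖a‖ ≤ θ := by
        by_contra hn
        push Not at hn
        refine hW.col a hn (mem_ball_zero_iff.1 ha) ?_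
        rw [hav]
        exact P_it h K (h.CP c hc)
      have ha1 : ‖a‖ < 1 := mem_ball_zero_iff.1 ha
      set ρ'' : ℝ := (M + ρ') / 2 with hρ''
      obtain ⟨v, Φ', hCv⟩ := crit h hy hεδ hθ hθ1 hW hc haθ hav (ρ0 := ρ'') (ρ' := ρ') (by rw [hρ'']; linarith)
        (hMd.trans_lt hρM) hρ1 (fun x hx => hsq _ (mem_closedBall_zero_iff.2
          ((bet_le hρ1 hθ1 haθ (mem_ball_zero_iff.1 hx).le).trans (le_max_right _ _))))
      refine ⟨c, hc, a, v, Φ', hCv.mono (by rw [hρ'']; linarith), ?_⟩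
      -- the marked point
      obtain ⟨x1, hx1⟩ := IsAlgClosed.exists_pow_nat_eq ((u0 - a) / (1 - (starRingEnd ℂ) a * u0)) (n := 2) (by norm_num)
      have hu01 : ‖u0‖ < 1 := hu0.trans_lt h1
      have hden := den_ne ha1 hu01
      have hx2 : ‖x1‖ ≤ q := by
        rw [hq]
        refine Real.le_sqrt_of_sq_le ?_
        rw [← norm_pow, hx1]
        exact mob_norm h1 hθ1 haθ hu0
      have hx3 : ‖x1‖ < 1 := hx2.trans_lt hq1
      have hden2 := den_ne2 ha1 hx3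
      have hbx : bet a x1 = u0 := by
        rw [bet, div_eq_iff hden2]
        rw [eq_div_iff hden] at hx1
        linear_combination hx1
      have hv2 : v x1 ^ 2 = w0 ^ 2 := by
        rw [hCv.vs x1 (mem_ball_zero_iff.2 hx3), hbx, ← hfz, hw2]
        ring
      have hxρ : ‖x1‖ ≤ ρ'' := by rw [hρ'']; linarith
      rcases sq_eq_sq_iff_eq_or_eq_neg.1 hv2 with h5 | h5
      · exact ⟨x1, hx3, hbx, by rw [(hCv.ve x1 hxρ).2, h5, hw1]⟩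
      · refine ⟨-x1, by rwa [norm_neg], by rw [bet_neg, hbx], ?_⟩
        rw [(hCv.ve (-x1) (by rwa [norm_neg])).2, hCv.vo, h5, neg_neg, hw1]
    · left
      obtain ⟨σ, hσd, hσ⟩ := ex_nofac hW.diff hcr
      have hσb : ∀ v ∈ ball (0 : ℂ) ρ', σ v ∈ ball (0 : ℂ) ρ := by
        intro v hv
        have h5 := hsq v (hsub hv)
        rw [← (hσ v (hsub1 hv)).2, norm_pow] at h5
        rw [mem_ball_zero_iff]
        have := norm_nonneg (σ v)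
        have := h.hρ
        nlinarith
      have hs2 : σ u0 ^ 2 = w0 ^ 2 := by
        rw [(hσ u0 (mem_ball_zero_iff.2 (hu0.trans_lt h1))).2, ← hfz, hw2]
        ring
      have key : ∀ s : ℂ, s ^ 2 = 1 → s * σ u0 = w0 → ∃ Φ' : ℂ → ℂ, Wd f U J P δ (K + 1) θ y ε Φ' ∧
          (∀ v ∈ ball (0 : ℂ) 1, Φ' v ∈ U ∧ f (Φ' v) = Φ v) ∧ Φ' u0 = z' := by
        intro s hs hs0
        have hsn : ‖s‖ = 1 := by
          have h6 : ‖s‖ ^ 2 = 1 := by rw [← norm_pow, hs, norm_one]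
          have := norm_nonneg s
          nlinarith
        have hsb : ∀ v ∈ ball (0 : ℂ) ρ', s * σ v ∈ ball (0 : ℂ) ρ := by
          intro v hv
          rw [mem_ball_zero_iff, norm_mul, hsn, one_mul]
          exact mem_ball_zero_iff.1 (hσb v hv)
        obtain ⟨Φ', hW', hv', hg'⟩ := uni h hy hεδ hθ (hMθ.trans_lt hρM) hρ1 hW (g0 := fun v => η c (s * σ v))
          (hηd.comp ((hσd.mono hsub1).const_mul s) hsb)
          (fun v hv => by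
            have h6 := hηv _ (hsb v hv)
            refine ⟨h6.1, ?_⟩
            show f (η c (s * σ v)) = Φ v
            rw [h6.2, mul_pow, hs, one_mul, (hσ v (hsub1 hv)).2]
            ring)
        refine ⟨Φ', hW', hv', ?_⟩
        rw [hg' u0 (mem_ball_zero_iff.2 hu0M)]
        show η c (s * σ u0) = z'
        rw [hs0, hw1]
      rcases sq_eq_sq_iff_eq_or_eq_neg.1 hs2 with h5 | h5
      · exact key 1 (by norm_num) (by rw [one_mul, h5])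
      · exact key (-1) (by norm_num) (by rw [h5]; ring)

theorem orb (h : PS f U J P Cr δ η ρ) {θ ρ0 : ℝ} (hθ : 0 < θ) (hθ1 : θ < 1) (h0 : 0 < ρ0) (h1 : ρ0 < 1) :
    ∃ ε0 : ℝ, 0 < ε0 ∧ ε0 ≤ δ ∧ ∀ (K : ℕ) (y : ℂ) (ε : ℝ) (Φ : ℂ → ℂ) (u0 z : ℂ) (n : ℕ), y ∈ J → ε ≤ ε0 →
      Wd f U J P δ K θ y ε Φ → z ∈ J → ‖u0‖ ≤ ρ0 → f^[n] z = Φ u0 →
      (∃ g : ℂ → ℂ, Wd f U J P δ (K + n) θ y ε g ∧ (∀ v ∈ ball (0 : ℂ) 1, g v ∈ dm f U J δ (n + K) ∧ f^[n] (g v) = Φ v) ∧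
        g u0 = z) ∨
      ∃ i l : ℕ, i + 1 + l = n ∧ ∃ g : ℂ → ℂ, Wd f U J P δ (K + l) θ y ε g ∧
        (∀ v ∈ ball (0 : ℂ) 1, g v ∈ dm f U J δ (l + K) ∧ f^[l] (g v) = Φ v) ∧ g u0 = f^[i + 1] z ∧
        ∃ c ∈ Cr, ∃ (a : ℂ) (v Φ' : ℂ → ℂ), Cv f U J P δ η ρ (K + l) θ y ε g ρ0 c a v Φ' ∧
          ∃ x0 : ℂ, ‖x0‖ < 1 ∧ bet a x0 = u0 ∧ Φ' x0 = f^[i] z := by
  obtain ⟨ε0, hε0, hε0δ, hst⟩ := step h hθ hθ1 h0 h1
  refine ⟨ε0, hε0, hε0δ, ?_⟩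
  intro K y ε Φ u0 z n hy hε hW hz hu0 hfz
  have key : ∀ l : ℕ, ∀ i : ℕ, i + l = n →
      (∃ g : ℂ → ℂ, Wd f U J P δ (K + l) θ y ε g ∧ (∀ v ∈ ball (0 : ℂ) 1, g v ∈ dm f U J δ (l + K) ∧ f^[l] (g v) = Φ v) ∧
        g u0 = f^[i] z) ∨
      ∃ i l : ℕ, i + 1 + l = n ∧ ∃ g : ℂ → ℂ, Wd f U J P δ (K + l) θ y ε g ∧
        (∀ v ∈ ball (0 : ℂ) 1, g v ∈ dm f U J δ (l + K) ∧ f^[l] (g v) = Φ v) ∧ g u0 = f^[i + 1] z ∧
        ∃ c ∈ Cr, ∃ (a : ℂ) (v Φ' : ℂ → ℂ), Cv f U J P δ η ρ (K + l) θ y ε g ρ0 c a v Φ' ∧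
          ∃ x0 : ℂ, ‖x0‖ < 1 ∧ bet a x0 = u0 ∧ Φ' x0 = f^[i] z := by
    intro l
    induction l with
    | zero =>
      intro i hi
      left
      refine ⟨Φ, hW, fun v hv => ⟨by rw [zero_add]; exact (hW.val v hv).1, rfl⟩, ?_⟩
      rw [← hfz, ← hi, add_zero]
    | succ l ih =>
      intro i hi
      rcases ih (i + 1) (by omega) with ⟨g, hg, hg1, hg2⟩ | hr
      · have hiJ : f^[i] z ∈ J := J_it h i hz
        rcases hst (K + l) y ε g u0 (f^[i] z) hy hε hg hiJ hu0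
            (by rw [hg2, Function.iterate_succ_apply']) with ⟨Φ', hW', hv', he'⟩ | ⟨c, hc, a, v, Φ', hCv, x0, hx0⟩
        · left
          refine ⟨Φ', hW', fun v hv => ⟨?_, ?_⟩, he'⟩
          · rw [show l + 1 + K = (K + l) + 1 by omega]
            exact (hW'.val v hv).1
          · rw [Function.iterate_succ_apply, (hv' v hv).2]
            exact (hg1 v hv).2
        · right
          exact ⟨i, l, by omega, g, hg, hg1, hg2, c, hc, a, v, Φ', hCv, x0, hx0⟩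
      · exact Or.inr hr
  have h2 := key n 0 (by omega)
  simpa using h2

end Pool.Agent.H56.WP
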