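import Pool.Agent.H55.PB.Sa
import Pool.Agent.H55.PB.Sq

/-!
# Pull backs of windows (ROB => DIM, chapter WP; MP_8f2e1c_an): definitions

`Wd K θ y ε Φ`: windows of level `K`: `Φ` is univalent on the unit disc with values in the domain of `f^K`, `f^K ∘ Φ` has values in
the small ball `ball y ε`, and `f^K` maps the collar `θ < |v| < 1` off `P`. `dth θ`: the parameter of the double cover. `Cv`: the
window around the critical point `c` which is mapped by `f` with degree `2` onto the window `Φ` around `f c = Φ a`.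
-/

set_option autoImplicit false

open Filter Topology Metric Set MeasureTheory

namespace Pool.Agent.H56.WP

open Pool.Agent.H56.UD Pool.Agent.H55.PB

/-- windows of level `K` -/
structure Wd (f : ℂ → ℂ) (U J P : Set ℂ) (δ : ℝ) (K : ℕ) (θ : ℝ) (y : ℂ) (ε : ℝ) (Φ : ℂ → ℂ) : Prop where
  diff : DifferentiableOn ℂ Φ (ball 0 1)
  inj : InjOn Φ (ball 0 1)
  val : ∀ v ∈ ball (0 : ℂ) 1, Φ v ∈ dm f U J δ K ∧ f^[K] (Φ v) ∈ ball y ε
  col : ∀ v : ℂ, θ < ‖v‖ → ‖v‖ < 1 → f^[K] (Φ v) ∉ P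

/-- the parameter of the double cover -/
noncomputable def dth (θ : ℝ) : ℝ := Real.sqrt (2 * θ / (1 + θ ^ 2))

/-- the window `Φ'` (level `K + 1`) around the critical point `c` over the window `Φ` (level `K`) around `f c = Φ a` -/
structure Cv (f : ℂ → ℂ) (U J P : Set ℂ) (δ : ℝ) (η : ℂ → ℂ → ℂ) (ρ : ℝ) (K : ℕ) (θ : ℝ) (y : ℂ) (ε : ℝ) (Φ : ℂ → ℂ)
    (ρ0 : ℝ) (c a : ℂ) (v Φ' : ℂ → ℂ) : Prop where
  ca : ‖a‖ ≤ θ
  va : Φ a = f c
  wd : Wd f U J P δ (K + 1) (dth θ) y ε Φ'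
  val : ∀ x ∈ ball (0 : ℂ) 1, Φ' x ∈ U ∧ f (Φ' x) = Φ (bet a x)
  z0 : Φ' 0 = c
  vd : DifferentiableOn ℂ v (ball 0 1)
  vo : ∀ x : ℂ, v (-x) = - v x
  vs : ∀ x ∈ ball (0 : ℂ) 1, v x ^ 2 = Φ (bet a x) - f c
  ve : ∀ x : ℂ, ‖x‖ ≤ ρ0 → v x ∈ ball (0 : ℂ) ρ ∧ Φ' x = η c (v x)

end Pool.Agent.H56.WP
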