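import Pool.Agent.H56.WP.Gl

/-!
# Pull backs of windows: the critical step

`dth_lt`, `bet_col`: `|x| > dth θ` implies `|bet a x| > θ`. `crit`: the window over a critical value.

PROOF of `crit`. `Φ u - Φ a = (u - a)/(1 - conj a u) σ(u)^2` (`ex_fac2`), `v x = x σ (bet a x)`, so `v^2 = Φ (bet a x) - f c`, `v` odd.
`g0 = η c ∘ v` on `ball 0 ρ'`, `glue` with `Ψ = Φ ∘ bet a`. Injective: `Φ' x = Φ' x'` gives `x' = ± x`; `Φ'` and `Φ' ∘ neg` are both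
lifts over the annulus, which do not agree near its inner circle.
-/

set_option autoImplicit false

open Filter Topology Metric Set MeasureTheory

namespace Pool.Agent.H56.WP

open Pool.Agent.H56.UD Pool.Agent.H55.PB

variable {f : ℂ → ℂ} {U J P Cr : Set ℂ} {δ : ℝ} {η : ℂ → ℂ → ℂ} {ρ : ℝ}

theorem dth_pos {θ : ℝ} (hθ : 0 < θ) : 0 < dth θ := by
  unfold dth
  positivity

theorem dth_lt {θ : ℝ} (hθ : 0 < θ) (hθ1 : θ < 1) : dth θ < 1 := by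
  unfold dth
  rw [Real.sqrt_lt' one_pos, div_lt_iff₀ (by positivity)]
  nlinarith [sq_nonneg (1 - θ), mul_pos (sub_pos.2 hθ1) (sub_pos.2 hθ1)]

/-- the norm of a Moebius quotient -/
theorem mob_norm {a u : ℂ} {s t : ℝ} (ht : t < 1) (hs1 : s < 1) (ha : ‖a‖ ≤ s) (hu : ‖u‖ ≤ t) :
    ‖(u - a) / (1 - (starRingEnd ℂ) a * u)‖ ≤ (s + t) / (1 + s * t) := by
  have ha0 := norm_nonneg a
  have hu0 := norm_nonneg u
  have hs0 : 0 ≤ s := ha0.trans ha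
  have ht0 : 0 ≤ t := hu0.trans hu
  have hal : ‖a‖ < 1 := ha.trans_lt hs1
  have hul : ‖u‖ < 1 := hu.trans_lt ht
  have hden : 1 - (starRingEnd ℂ) a * u ≠ 0 := den_ne hal hul
  have hdp : 0 < ‖1 - (starRingEnd ℂ) a * u‖ := norm_pos_iff.2 hden
  -- identity
  have hid : ‖1 - (starRingEnd ℂ) a * u‖ ^ 2 - ‖u - a‖ ^ 2 = (1 - ‖a‖ ^ 2) * (1 - ‖u‖ ^ 2) := by
    rw [← Complex.normSq_eq_norm_sq, ← Complex.normSq_eq_norm_sq, ← Complex.normSq_eq_norm_sq,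
      ← Complex.normSq_eq_norm_sq]
    simp only [Complex.normSq_apply, Complex.sub_re, Complex.sub_im, Complex.mul_re, Complex.mul_im,
      Complex.conj_re, Complex.conj_im, Complex.one_re, Complex.one_im]
    ring
  have hle : ‖1 - (starRingEnd ℂ) a * u‖ ≤ 1 + ‖a‖ * ‖u‖ := by
    calc ‖1 - (starRingEnd ℂ) a * u‖ ≤ ‖(1 : ℂ)‖ + ‖(starRingEnd ℂ) a * u‖ := norm_sub_le _ _
      _ = 1 + ‖a‖ * ‖u‖ := by rw [norm_one, norm_mul, RCLike.norm_conj]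
  have h1 : ‖u - a‖ / ‖1 - (starRingEnd ℂ) a * u‖ ≤ (‖a‖ + ‖u‖) / (1 + ‖a‖ * ‖u‖) := by
    have hp : 0 < 1 + ‖a‖ * ‖u‖ := by positivity
    rw [div_le_div_iff₀ hdp hp]
    have hsq : (‖u - a‖ * (1 + ‖a‖ * ‖u‖)) ^ 2 ≤ ((‖a‖ + ‖u‖) * ‖1 - (starRingEnd ℂ) a * u‖) ^ 2 := by
      have e1 : ‖u - a‖ ^ 2 = ‖1 - (starRingEnd ℂ) a * u‖ ^ 2 - (1 - ‖a‖ ^ 2) * (1 - ‖u‖ ^ 2) := by linarith
      rw [mul_pow, mul_pow, e1]
      have e2 : ‖1 - (starRingEnd ℂ) a * u‖ ^ 2 ≤ (1 + ‖a‖ * ‖u‖) ^ 2 := by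
        exact pow_le_pow_left₀ hdp.le hle 2
      have e3 : 0 ≤ (1 - ‖a‖ ^ 2) * (1 - ‖u‖ ^ 2) := by
        apply mul_nonneg <;> nlinarith
      have e4 : (1 + ‖a‖ * ‖u‖) ^ 2 - (‖a‖ + ‖u‖) ^ 2 = (1 - ‖a‖ ^ 2) * (1 - ‖u‖ ^ 2) := by ring
      nlinarith
    exact abs_le_of_sq_le_sq' hsq (by positivity) |>.2
  rw [norm_div]
  refine h1.trans ?_
  rw [div_le_div_iff₀ (by positivity) (by positivity)]
  have k1 : 0 ≤ (s - ‖a‖) := by linarith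
  have k2 : 0 ≤ (t - ‖u‖) := by linarith
  -- (A+B)(1+st) ≤ (s+t)(1+AB)
  have k3 : ‖a‖ * t ≤ 1 := by nlinarith
  have k4 : 0 ≤ (s - ‖a‖) * (1 - t * ‖u‖) := mul_nonneg k1 (by nlinarith)
  have k5 : 0 ≤ (t - ‖u‖) * (1 - s * ‖a‖) := mul_nonneg k2 (by nlinarith)
  -- split: first replace a by s, then u by t
  have k6 : (‖a‖ + ‖u‖) * (1 + s * ‖u‖) ≤ (s + ‖u‖) * (1 + ‖a‖ * ‖u‖) := by nlinarith [mul_nonneg k1 (by nlinarith : (0:ℝ) ≤ 1 - ‖u‖ ^ 2)]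
  have k7 : (s + ‖u‖) * (1 + s * t) ≤ (s + t) * (1 + s * ‖u‖) := by nlinarith [mul_nonneg k2 (by nlinarith : (0:ℝ) ≤ 1 - s ^ 2)]
  have p1 : 0 < 1 + s * ‖u‖ := by positivity
  have p2 : 0 < 1 + ‖a‖ * ‖u‖ := by positivity
  have k8 : (‖a‖ + ‖u‖) / (1 + ‖a‖ * ‖u‖) ≤ (s + ‖u‖) / (1 + s * ‖u‖) := by
    rw [div_le_div_iff₀ p2 p1]; exact k6
  have k9 : (s + ‖u‖) / (1 + s * ‖u‖) ≤ (s + t) / (1 + s * t) := by
    rw [div_le_div_iff₀ p1 (by positivity)]; exact k7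
  have k10 := k8.trans k9
  rwa [div_le_div_iff₀ p2 (by positivity)] at k10

theorem bet_sq_le {a x : ℂ} {s t : ℝ} (ht : t < 1) (hs1 : s < 1) (ha : ‖a‖ ≤ s) (hx : ‖x‖ < 1)
    (hu : ‖bet a x‖ ≤ t) : ‖x‖ ^ 2 ≤ (s + t) / (1 + s * t) := by
  have h1 := sq_of_bet (ha.trans_lt hs1) hx (hu.trans_lt ht) (rfl : bet a x = bet a x)
  have h2 := mob_norm ht hs1 ha hu
  rw [← h1, norm_pow] at h2
  exact h2

theorem bet_col {θ : ℝ} (hθ : 0 < θ) (hθ1 : θ < 1) {a x : ℂ} (ha : ‖a‖ ≤ θ) (hx : ‖x‖ < 1) (h : dth θ < ‖x‖) :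
    θ < ‖bet a x‖ := by
  by_contra hn
  push Not at hn
  have h1 := bet_sq_le hθ1 hθ1 ha hx hn
  have h2 : dth θ ^ 2 = 2 * θ / (1 + θ ^ 2) := by
    unfold dth
    exact Real.sq_sqrt (by positivity)
  have h3 : dth θ ^ 2 < ‖x‖ ^ 2 := by
    have := dth_pos hθ
    nlinarith
  rw [h2] at h3
  have h4 : (θ + θ) / (1 + θ * θ) = 2 * θ / (1 + θ ^ 2) := by ring_nf
  rw [h4] at h1
  linarith

/-- the upper bound: `|bet a x| ≤ (t^2 + s)/(1 + s t^2)` for `|x| ≤ t`, `|a| ≤ s` -/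
theorem bet_le {a x : ℂ} {s t : ℝ} (ht : t < 1) (hs1 : s < 1) (ha : ‖a‖ ≤ s) (hx : ‖x‖ ≤ t) :
    ‖bet a x‖ ≤ (s + t ^ 2) / (1 + s * t ^ 2) := by
  have h0 := norm_nonneg x
  have ht0 : 0 ≤ t := h0.trans hx
  have h1 : ‖x ^ 2‖ ≤ t ^ 2 := by rw [norm_pow]; exact pow_le_pow_left₀ h0 hx 2
  have h2 : t ^ 2 < 1 := by nlinarith
  have h3 := mob_norm (a := -a) h2 hs1 (by rwa [norm_neg]) h1
  have h4 : (x ^ 2 - -a) / (1 - (starRingEnd ℂ) (-a) * x ^ 2) = bet a x := by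
    rw [bet, map_neg]; ring_nf
  rwa [h4] at h3

theorem annulus_conn {θ' : ℝ} (hθ : 0 < θ') : IsPreconnected {x : ℂ | θ' < ‖x‖ ∧ ‖x‖ < 1} := by
  have h1 : {x : ℂ | θ' < ‖x‖ ∧ ‖x‖ < 1} = Complex.exp '' Sp (Real.log θ') 0 := by
    ext x
    constructor
    · rintro ⟨h1, h2⟩
      have hx : x ≠ 0 := norm_pos_iff.1 (hθ.trans h1)
      exact ⟨Complex.log x, (Sp_exp1 hθ).2 (by rw [Complex.exp_log hx]; exact ⟨h1, h2⟩), Complex.exp_log hx⟩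
    · rintro ⟨ζ, hζ, rfl⟩
      exact (Sp_exp1 hθ).1 hζ
  rw [h1]
  exact (Sp_convex _ _).isPreconnected.image _ Complex.continuous_exp.continuousOn

theorem crit (h : PS f U J P Cr δ η ρ) {K : ℕ} {y : ℂ} {ε θ ρ' ρ0 : ℝ} (hy : y ∈ J) (hε : ε ≤ δ) (hθ : 0 < θ)
    (hθ1 : θ < 1) {Φ : ℂ → ℂ} (hW : Wd f U J P δ K θ y ε Φ) {c a : ℂ} (hc : c ∈ Cr) (ha : ‖a‖ ≤ θ) (hva : Φ a = f c)
    (h0 : ρ0 < ρ') (hρ' : dth θ < ρ') (hρ1 : ρ' < 1)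
    (hsm : ∀ x ∈ ball (0 : ℂ) ρ', ‖Φ (bet a x) - f c‖ < ρ ^ 2 / 4) :
    ∃ v Φ' : ℂ → ℂ, Cv f U J P δ η ρ K θ y ε Φ ρ0 c a v Φ' := by
  have ha1 : ‖a‖ < 1 := ha.trans_lt hθ1
  have haB : a ∈ ball (0 : ℂ) 1 := mem_ball_zero_iff.2 ha1
  have hd0 := dth_pos hθ
  have hρp : 0 < ρ' := hd0.trans hρ'
  obtain ⟨σ, hσd, hσ⟩ := ex_fac2 hW.diff hW.inj haB
  have hbm : ∀ x ∈ ball (0 : ℂ) 1, bet a x ∈ ball (0 : ℂ) 1 := fun x hx => bet_lt ha1 hx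
  have hbd := bet_diff ha1
  set v : ℂ → ℂ := fun x => x * σ (bet a x) with hv
  have hvd : DifferentiableOn ℂ v (ball 0 1) := differentiableOn_id.mul (hσd.comp hbd hbm)
  have hvo : ∀ x, v (-x) = - v x := fun x => by
    simp only [hv]; rw [bet_neg]; ring
  have hvs : ∀ x ∈ ball (0 : ℂ) 1, v x ^ 2 = Φ (bet a x) - f c := by
    intro x hx
    have h1 := sq_of_bet ha1 (mem_ball_zero_iff.1 hx) (mem_ball_zero_iff.1 (hbm x hx)) rfl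
    have h2 := (hσ _ (hbm x hx)).2
    rw [← hva, h2, ← h1]
    simp only [hv]
    ring
  have hvn : ∀ x ∈ ball (0 : ℂ) 1, v x = 0 → x = 0 := by
    intro x hx h1
    simp only [hv] at h1
    rcases mul_eq_zero.1 h1 with h2 | h2
    · exact h2
    · exact absurd h2 (hσ _ (hbm x hx)).1
  obtain ⟨hηd, hηi, hη0, hηv⟩ := h.nf c hc
  have hsub : ball (0 : ℂ) ρ' ⊆ ball 0 1 := ball_subset_ball hρ1.le
  have hvb : ∀ x ∈ ball (0 : ℂ) ρ', v x ∈ ball (0 : ℂ) ρ := by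
    intro x hx
    have h1 := hsm x hx
    rw [← hvs x (hsub hx), norm_pow] at h1
    rw [mem_ball_zero_iff]
    have := norm_nonneg (v x)
    have := h.hρ
    nlinarith
  obtain ⟨Φ', hΦd, hΦv, hΦg⟩ := glue h (K := K) (y := y) (ε := ε) (θ' := dth θ) (ρ' := ρ') hy hε hd0 hρ' hρ1
    (Ψ := fun x => Φ (bet a x)) (g0 := fun x => η c (v x)) (hW.diff.comp hbd hbm)
    (fun x hx => hW.val _ (hbm x hx))
    (fun x h1 h2 => hW.col _ (bet_col hθ hθ1 ha h2 h1) (mem_ball_zero_iff.1 (hbm x (mem_ball_zero_iff.2 h2))))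
    (hηd.comp (hvd.mono hsub) hvb)
    (fun x hx => by
      have h1 := hηv (v x) (hvb x hx)
      refine ⟨h1.1, ?_⟩
      show f (η c (v x)) = Φ (bet a x)
      rw [h1.2, hvs x (hsub hx)]
      ring)
  have hdm : ∀ x ∈ ball (0 : ℂ) 1, Φ' x ∈ dm f U J δ (K + 1) ∧ f^[K + 1] (Φ' x) = f^[K] (Φ (bet a x)) := by
    intro x hx
    have h1 := hΦv x hx
    refine ⟨(dm_succ K _).2 ⟨h1.1, ?_⟩, ?_⟩
    · rw [h1.2]; exact (hW.val _ (hbm x hx)).1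
    · rw [Function.iterate_succ_apply, h1.2]
  have hcol : ∀ x : ℂ, dth θ < ‖x‖ → ‖x‖ < 1 → f^[K + 1] (Φ' x) ∉ P := by
    intro x h1 h2
    rw [(hdm x (mem_ball_zero_iff.2 h2)).2]
    exact hW.col _ (bet_col hθ hθ1 ha h2 h1) (mem_ball_zero_iff.1 (hbm x (mem_ball_zero_iff.2 h2)))
  -- no coincidence near the inner part
  have hin : ∀ x ∈ ball (0 : ℂ) ρ', Φ' x = Φ' (-x) → x = 0 := by
    intro x hx he
    have hx' : -x ∈ ball (0 : ℂ) ρ' := by rw [mem_ball_zero_iff, norm_neg]; exact mem_ball_zero_iff.1 hx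
    rw [hΦg x hx, hΦg _ hx'] at he
    have h1 := hηi (hvb x hx) (hvb _ hx') he
    rw [hvo] at h1
    have h2 : v x = 0 := by
      have : (2 : ℂ) * v x = 0 := by linear_combination h1
      rcases mul_eq_zero.1 this with h3 | h3
      · norm_num at h3
      · exact h3
    exact hvn x (hsub hx) h2
  have hout : ∀ x ∈ {x : ℂ | dth θ < ‖x‖ ∧ ‖x‖ < 1}, Φ' x ≠ Φ' (-x) := by
    intro x hx he
    have hA : IsPreconnected {x : ℂ | dth θ < ‖x‖ ∧ ‖x‖ < 1} := annulus_conn hd0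
    have hAs : {x : ℂ | dth θ < ‖x‖ ∧ ‖x‖ < 1} ⊆ ball (0 : ℂ) 1 := fun w hw => mem_ball_zero_iff.2 hw.2
    have hAn : ∀ w ∈ {x : ℂ | dth θ < ‖x‖ ∧ ‖x‖ < 1}, -w ∈ {x : ℂ | dth θ < ‖x‖ ∧ ‖x‖ < 1} := by
      intro w hw
      simpa using hw
    have h1 : EqOn Φ' (fun w => Φ' (-w)) {x : ℂ | dth θ < ‖x‖ ∧ ‖x‖ < 1} :=
      lift_unique h (k := K + 1) hA (hΦd.continuousOn.mono hAs)
        ((hΦd.continuousOn.mono hAs).comp continuous_neg.continuousOn hAn)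
        (fun w hw => (hdm w (hAs hw)).1) (fun w hw => (hdm _ (hAs (hAn w hw))).1)
        (fun w hw => by
          rw [(hdm w (hAs hw)).2, (hdm _ (hAs (hAn w hw))).2, bet_neg])
        (fun w hw => der_off h (hdm w (hAs hw)).1 (hcol w hw.1 hw.2)) hx he
    set t : ℂ := (((dth θ + ρ') / 2 : ℝ) : ℂ) with ht
    have htn : ‖t‖ = (dth θ + ρ') / 2 := by
      rw [ht, Complex.norm_real, Real.norm_of_nonneg (by linarith)]
    have h2 := h1 (show t ∈ {x : ℂ | dth θ < ‖x‖ ∧ ‖x‖ < 1} by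
      constructor <;> rw [htn] <;> linarith)
    have h3 := hin t (by rw [mem_ball_zero_iff, htn]; linarith) h2
    have h4 : ‖t‖ = 0 := by rw [h3, norm_zero]
    rw [htn] at h4
    linarith
  have hinj : InjOn Φ' (ball 0 1) := by
    intro x hx x' hx' he
    have h1 : Φ (bet a x) = Φ (bet a x') := by
      rw [← (hΦv x hx).2, ← (hΦv x' hx').2, he]
    have h2 := hW.inj (hbm x hx) (hbm x' hx') h1
    rcases bet_eq ha1 (mem_ball_zero_iff.1 hx) (mem_ball_zero_iff.1 hx') h2 with h3 | h3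
    · exact h3.symm
    · rw [h3] at he
      by_cases h4 : ‖x‖ < ρ'
      · have h5 := hin x (mem_ball_zero_iff.2 h4) he
        rw [h3, h5, neg_zero]
      · push Not at h4
        exact absurd he (hout x ⟨hρ'.trans_le h4, mem_ball_zero_iff.1 hx⟩)
  refine ⟨v, Φ', ha, hva, ⟨hΦd, hinj, fun x hx => ⟨(hdm x hx).1, ?_⟩, hcol⟩, hΦv, ?_, hvd, hvo, hvs, ?_⟩
  · rw [(hdm x hx).2]; exact (hW.val _ (hbm x hx)).2
  · rw [hΦg 0 (mem_ball_self hρp)]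
    show η c (v 0) = c
    have : v 0 = 0 := by simp [hv]
    rw [this, hη0]
  · intro x hx
    have h1 : x ∈ ball (0 : ℂ) ρ' := mem_ball_zero_iff.2 (hx.trans_lt h0)
    exact ⟨hvb x h1, hΦg x h1⟩

end Pool.Agent.H56.WP
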