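import Pool.Agent.H56.WP.Defs

/-!
# Pull backs of windows: gluing over the collar

`der_off`: the derivative of `f^k` is not `0` at points with values off `P`. `glue`: `Ψ` on the unit disc with values in `dm K`,
the collar is mapped off `P` by `f^K`, `g0` a lift of `Ψ` by `f` on `ball 0 ρ'`: it extends to the unit disc.

PROOF of `glue`. `S` = the strip `log θ' < Re ζ < 0`, `PS.lift` for `f^(K+1)` and `H ζ = f^K (Ψ (exp ζ))`, base point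
`ζ0 = log ((θ' + ρ')/2)`, value `g0 (exp ζ0)`: `G`. Uniqueness of lifts: `f (G ζ) = Ψ (exp ζ)`, `G = g0 ∘ exp` on the part
`Re ζ < log ρ'`, `G (ζ + 2 π i n) = G ζ`. Put `Φ' v = g0 v` for `|v| < ρ'`, `Φ' v = G (log v)` otherwise.
-/

set_option autoImplicit false

open Filter Topology Metric Set MeasureTheory

namespace Pool.Agent.H56.WP

open Pool.Agent.H56.UD Pool.Agent.H55.PB

variable {f : ℂ → ℂ} {U J P Cr : Set ℂ} {δ : ℝ} {η : ℂ → ℂ → ℂ} {ρ : ℝ}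

theorem der_off (h : PS f U J P Cr δ η ρ) {k : ℕ} {w : ℂ} (hw : w ∈ dm f U J δ k) (hP : f^[k] w ∉ P) :
    deriv (f^[k]) w ≠ 0 := by
  have h1 : f^[k] w ∈ thickening δ J := hw.2
  obtain ⟨r, hr, hb⟩ := Metric.isOpen_iff.1 (isOpen_thickening.inter h.Pc.isOpen_compl) (f^[k] w) ⟨h1, hP⟩
  obtain ⟨G, hG, hG0, hG1⟩ := br_ball h (k := k) (w := f^[k] w) (z := w) (r := r) (fun u hu => (hb hu).1)
    (fun u hu => (hb hu).2) hw (mem_ball_self hr)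
  have h2 := der_lift h isOpen_ball hG hG1 (mem_ball_self hr)
  rw [hG0] at h2
  intro h3
  rw [h3, zero_mul] at h2
  have h4 : deriv (fun u : ℂ => u) (f^[k] w) = 1 := deriv_id _
  rw [h4] at h2
  exact zero_ne_one h2

/-- the strip of the collar -/
def Sp (a b : ℝ) : Set ℂ := {ζ | a < ζ.re ∧ ζ.re < b}

theorem Sp_open (a b : ℝ) : IsOpen (Sp a b) :=
  (isOpen_lt continuous_const Complex.continuous_re).inter (isOpen_lt Complex.continuous_re continuous_const)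

theorem Sp_convex (a b : ℝ) : Convex ℝ (Sp a b) := (convex_halfSpace_re_gt _).inter (convex_halfSpace_re_lt _)

theorem Sp_exp {θ : ℝ} (hθ : 0 < θ) {ρ' : ℝ} (hρ : 0 < ρ') {ζ : ℂ} :
    ζ ∈ Sp (Real.log θ) (Real.log ρ') ↔ θ < ‖Complex.exp ζ‖ ∧ ‖Complex.exp ζ‖ < ρ' := by
  rw [Complex.norm_exp]
  constructor
  · rintro ⟨h1, h2⟩
    exact ⟨by rwa [← Real.log_lt_iff_lt_exp hθ], by rwa [← Real.lt_log_iff_exp_lt hρ]⟩
  · rintro ⟨h1, h2⟩
    exact ⟨by rwa [← Real.log_lt_iff_lt_exp hθ] at h1, by rwa [← Real.lt_log_iff_exp_lt hρ] at h2⟩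

theorem Sp_exp1 {θ : ℝ} (hθ : 0 < θ) {ζ : ℂ} :
    ζ ∈ Sp (Real.log θ) 0 ↔ θ < ‖Complex.exp ζ‖ ∧ ‖Complex.exp ζ‖ < 1 := by
  have := Sp_exp hθ (ρ' := 1) one_pos (ζ := ζ)
  rwa [Real.log_one] at this

theorem glue (h : PS f U J P Cr δ η ρ) {K : ℕ} {y : ℂ} {ε θ' ρ' : ℝ} (hy : y ∈ J) (hε : ε ≤ δ) (hθ : 0 < θ')
    (hθρ : θ' < ρ') (hρ1 : ρ' < 1) {Ψ g0 : ℂ → ℂ} (hd : DifferentiableOn ℂ Ψ (ball 0 1))
    (hv : ∀ v ∈ ball (0 : ℂ) 1, Ψ v ∈ dm f U J δ K ∧ f^[K] (Ψ v) ∈ ball y ε)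
    (hc : ∀ v : ℂ, θ' < ‖v‖ → ‖v‖ < 1 → f^[K] (Ψ v) ∉ P) (hg : DifferentiableOn ℂ g0 (ball 0 ρ'))
    (hg1 : ∀ v ∈ ball (0 : ℂ) ρ', g0 v ∈ U ∧ f (g0 v) = Ψ v) :
    ∃ Φ' : ℂ → ℂ, DifferentiableOn ℂ Φ' (ball 0 1) ∧ (∀ v ∈ ball (0 : ℂ) 1, Φ' v ∈ U ∧ f (Φ' v) = Ψ v) ∧
      ∀ v ∈ ball (0 : ℂ) ρ', Φ' v = g0 v := by
  classical
  have hρ0 : 0 < ρ' := hθ.trans hθρ
  set S : Set ℂ := Sp (Real.log θ') 0 with hS
  have hSo : IsOpen S := Sp_open _ _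
  have hSc : Convex ℝ S := Sp_convex _ _
  have hexp : ∀ ζ ∈ S, θ' < ‖Complex.exp ζ‖ ∧ ‖Complex.exp ζ‖ < 1 := fun ζ hζ => (Sp_exp1 hθ).1 hζ
  have hb1 : ∀ ζ ∈ S, Complex.exp ζ ∈ ball (0 : ℂ) 1 := fun ζ hζ => mem_ball_zero_iff.2 (hexp ζ hζ).2
  have hdm : ∀ v ∈ ball (0 : ℂ) ρ', g0 v ∈ dm f U J δ (K + 1) := fun v hv' =>
    (dm_succ K _).2 ⟨(hg1 v hv').1, by
      rw [(hg1 v hv').2]; exact (hv v (ball_subset_ball hρ1.le hv')).1⟩
  -- base point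
  set ζ0 : ℂ := ((Real.log ((θ' + ρ') / 2) : ℝ) : ℂ) with hζ0
  have hmid : 0 < (θ' + ρ') / 2 := by linarith
  have he0 : Complex.exp ζ0 = (((θ' + ρ') / 2 : ℝ) : ℂ) := by
    rw [hζ0, ← Complex.ofReal_exp, Real.exp_log hmid]
  have hn0 : ‖Complex.exp ζ0‖ = (θ' + ρ') / 2 := by
    rw [he0, Complex.norm_real, Real.norm_of_nonneg hmid.le]
  have hζS : ζ0 ∈ S := (Sp_exp1 hθ).2 (by rw [hn0]; constructor <;> linarith)
  have hζρ : Complex.exp ζ0 ∈ ball (0 : ℂ) ρ' := by rw [mem_ball_zero_iff, hn0]; linarith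
  obtain ⟨G, hGd, hG0, hGv⟩ := h.lift (K + 1) S (fun ζ => f^[K] (Ψ (Complex.exp ζ))) ζ0 (g0 (Complex.exp ζ0)) hSc hSo
    (by
      have h1 : DifferentiableOn ℂ (fun ζ => Ψ (Complex.exp ζ)) S :=
        hd.comp Complex.differentiable_exp.differentiableOn hb1
      exact (dm_diff h K).comp h1 fun ζ hζ => (hv _ (hb1 ζ hζ)).1)
    (fun ζ hζ => ⟨mem_thickening_iff.2 ⟨y, hy, (mem_ball.1 (hv _ (hb1 ζ hζ)).2).trans_le hε⟩,
      hc _ (hexp ζ hζ).1 (hexp ζ hζ).2⟩) hζS (hdm _ hζρ) (by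
        rw [Function.iterate_succ_apply, (hg1 _ hζρ).2])
  -- derivative
  have hder : ∀ ζ ∈ S, deriv (f^[K]) (Ψ (Complex.exp ζ)) ≠ 0 := fun ζ hζ =>
    der_off h (hv _ (hb1 ζ hζ)).1 (hc _ (hexp ζ hζ).1 (hexp ζ hζ).2)
  have hGo : ∀ ζ ∈ S, f^[K + 1] (G ζ) ∉ P := fun ζ hζ => by
    rw [(hGv ζ hζ).2]; exact hc _ (hexp ζ hζ).1 (hexp ζ hζ).2
  have hder1 : ∀ ζ ∈ S, deriv (f^[K + 1]) (G ζ) ≠ 0 := fun ζ hζ => der_off h (hGv ζ hζ).1 (hGo ζ hζ)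
  have hGU : ∀ ζ ∈ S, G ζ ∈ U ∧ f (G ζ) ∈ dm f U J δ K := fun ζ hζ => (dm_succ K _).1 (hGv ζ hζ).1
  have hcont : ContinuousOn (fun ζ => Ψ (Complex.exp ζ)) S :=
    hd.continuousOn.comp Complex.continuous_exp.continuousOn hb1
  -- (a)
  have ha : ∀ ζ ∈ S, f (G ζ) = Ψ (Complex.exp ζ) := by
    have h1 : EqOn (fun ζ => Ψ (Complex.exp ζ)) (fun ζ => f (G ζ)) S :=
      lift_unique h (k := K) hSc.isPreconnected hcont
        (h.fd.continuousOn.comp hGd.continuousOn fun ζ hζ => (hGU ζ hζ).1)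
        (fun ζ hζ => (hv _ (hb1 ζ hζ)).1) (fun ζ hζ => (hGU ζ hζ).2)
        (fun ζ hζ => by
          have := (hGv ζ hζ).2
          rw [Function.iterate_succ_apply] at this
          exact this.symm) hder hζS (by
            show Ψ (Complex.exp ζ0) = f (G ζ0)
            rw [hG0, (hg1 _ hζρ).2])
    exact fun ζ hζ => (h1 hζ).symm
  -- (b)
  have hS2 : Sp (Real.log θ') (Real.log ρ') ⊆ S := fun ζ hζ =>
    ⟨hζ.1, hζ.2.trans (Real.log_neg hρ0 hρ1)⟩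
  have hb : ∀ ζ ∈ S, Complex.exp ζ ∈ ball (0 : ℂ) ρ' → G ζ = g0 (Complex.exp ζ) := by
    have hmem : ∀ ζ ∈ Sp (Real.log θ') (Real.log ρ'), Complex.exp ζ ∈ ball (0 : ℂ) ρ' := fun ζ hζ =>
      mem_ball_zero_iff.2 ((Sp_exp hθ hρ0).1 hζ).2
    have h1 : EqOn G (fun ζ => g0 (Complex.exp ζ)) (Sp (Real.log θ') (Real.log ρ')) :=
      lift_unique h (k := K + 1) (Sp_convex _ _).isPreconnected (hGd.continuousOn.mono hS2)
        (hg.continuousOn.comp Complex.continuous_exp.continuousOn hmem)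
        (fun ζ hζ => (hGv ζ (hS2 hζ)).1) (fun ζ hζ => hdm _ (hmem ζ hζ))
        (fun ζ hζ => by
          rw [(hGv ζ (hS2 hζ)).2, Function.iterate_succ_apply, (hg1 _ (hmem ζ hζ)).2])
        (fun ζ hζ => hder1 ζ (hS2 hζ)) (q := ζ0) ((Sp_exp hθ hρ0).2 (by rw [hn0]; constructor <;> linarith)) hG0
    intro ζ hζ hζ2
    exact h1 ((Sp_exp hθ hρ0).2 ⟨(hexp ζ hζ).1, mem_ball_zero_iff.1 hζ2⟩)
  -- (c)
  have hper : ∀ (n : ℤ), ∀ ζ ∈ S, G (ζ + n * (2 * Real.pi * Complex.I)) = G ζ := by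
    intro n
    have hre : ∀ ζ : ℂ, (ζ + n * (2 * Real.pi * Complex.I)).re = ζ.re := by
      intro ζ; simp
    have hsh : ∀ ζ ∈ S, ζ + n * (2 * Real.pi * Complex.I) ∈ S := fun ζ hζ => by
      refine ⟨?_, ?_⟩
      · rw [hre]; exact hζ.1
      · rw [hre]; exact hζ.2
    have hee : ∀ ζ : ℂ, Complex.exp (ζ + n * (2 * Real.pi * Complex.I)) = Complex.exp ζ := fun ζ => exp_int ζ n
    have h1 : EqOn G (fun ζ => G (ζ + n * (2 * Real.pi * Complex.I))) S :=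
      lift_unique h (k := K + 1) hSc.isPreconnected hGd.continuousOn
        (hGd.continuousOn.comp (by fun_prop) hsh) (fun ζ hζ => (hGv ζ hζ).1)
        (fun ζ hζ => (hGv _ (hsh ζ hζ)).1)
        (fun ζ hζ => by
          rw [(hGv ζ hζ).2, (hGv _ (hsh ζ hζ)).2, hee]) hder1 hζS (by
            show G ζ0 = G (ζ0 + n * (2 * Real.pi * Complex.I))
            rw [hb ζ0 hζS hζρ, hb _ (hsh _ hζS) (by rw [hee]; exact hζρ), hee])
    exact fun ζ hζ => (h1 hζ).symm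
  have hwell : ∀ ζ ∈ S, ∀ ζ' ∈ S, Complex.exp ζ = Complex.exp ζ' → G ζ = G ζ' := by
    intro ζ hζ ζ' hζ' he
    obtain ⟨n, hn⟩ := Complex.exp_eq_exp_iff_exists_int.1 he
    rw [hn]
    exact hper n ζ' hζ'
  -- the map
  have hlog : ∀ v : ℂ, θ' < ‖v‖ → ‖v‖ < 1 → Complex.log v ∈ S ∧ Complex.exp (Complex.log v) = v := by
    intro v h1 h2
    have hv0 : v ≠ 0 := norm_pos_iff.1 (hθ.trans h1)
    exact ⟨(Sp_exp1 hθ).2 (by rw [Complex.exp_log hv0]; exact ⟨h1, h2⟩), Complex.exp_log hv0⟩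
  set Φ' : ℂ → ℂ := fun v => if ‖v‖ < ρ' then g0 v else G (Complex.log v) with hΦ
  have hΦg : ∀ v ∈ ball (0 : ℂ) ρ', Φ' v = g0 v := fun v hv' => by
    rw [hΦ]; exact if_pos (mem_ball_zero_iff.1 hv')
  have hΦG : ∀ ζ ∈ S, Φ' (Complex.exp ζ) = G ζ := by
    intro ζ hζ
    by_cases h1 : ‖Complex.exp ζ‖ < ρ'
    · rw [hΦg _ (mem_ball_zero_iff.2 h1), hb ζ hζ (mem_ball_zero_iff.2 h1)]
    · rw [hΦ]
      simp only [h1, if_false]
      have h2 := hlog (Complex.exp ζ) (hexp ζ hζ).1 (hexp ζ hζ).2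
      exact hwell _ h2.1 _ hζ h2.2
  refine ⟨Φ', ?_, ?_, hΦg⟩
  · intro v hv'
    by_cases h1 : ‖v‖ < ρ'
    · have h2 : Φ' =ᶠ[𝓝 v] g0 := by
        filter_upwards [isOpen_ball.mem_nhds (mem_ball_zero_iff.2 h1 : v ∈ ball (0 : ℂ) ρ')] with w hw
        exact hΦg w hw
      exact ((hg.differentiableAt (isOpen_ball.mem_nhds (mem_ball_zero_iff.2 h1))).congr_of_eventuallyEq
        h2).differentiableWithinAt
    · push Not at h1
      have hv1 : ‖v‖ < 1 := mem_ball_zero_iff.1 hv'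
      have hvθ : θ' < ‖v‖ := hθρ.trans_le h1
      have hv0 : v ≠ 0 := norm_pos_iff.1 (hθ.trans hvθ)
      obtain ⟨hl1, hl2⟩ := hlog v hvθ hv1
      set L : ℂ → ℂ := fun w => Complex.log (w / v) + Complex.log v with hL
      have hLv : L v = Complex.log v := by simp [hL, div_self hv0]
      have hLd : DifferentiableAt ℂ L v := by
        have h3 : DifferentiableAt ℂ (fun w : ℂ => w / v) v := by fun_prop
        refine (h3.clog ?_).add (differentiableAt_const _)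
        rw [div_self hv0]
        exact Complex.one_mem_slitPlane
      have hLe : ∀ w : ℂ, w ≠ 0 → Complex.exp (L w) = w := by
        intro w hw
        rw [hL]
        simp only
        rw [Complex.exp_add, Complex.exp_log (div_ne_zero hw hv0), Complex.exp_log hv0, div_mul_cancel₀ _ hv0]
      have hGL : DifferentiableAt ℂ (fun w => G (L w)) v := by
        have h4 : DifferentiableAt ℂ G (L v) := by
          rw [hLv]; exact hGd.differentiableAt (hSo.mem_nhds hl1)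
        exact h4.comp v hLd
      have hev : Φ' =ᶠ[𝓝 v] fun w => G (L w) := by
        have h5 : ∀ᶠ w in 𝓝 v, L w ∈ S := by
          have : L v ∈ S := by rw [hLv]; exact hl1
          exact hLd.continuousAt.eventually (hSo.mem_nhds this)
        have h6 : ∀ᶠ w in 𝓝 v, w ≠ 0 := isOpen_ne.mem_nhds hv0
        filter_upwards [h5, h6] with w h7 h8
        have h9 := hΦG (L w) h7
        rwa [hLe w h8] at h9
      exact (hGL.congr_of_eventuallyEq hev).differentiableWithinAt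
  · intro v hv'
    by_cases h1 : ‖v‖ < ρ'
    · rw [hΦg v (mem_ball_zero_iff.2 h1)]
      exact hg1 v (mem_ball_zero_iff.2 h1)
    · push Not at h1
      obtain ⟨h2, h3⟩ := hlog v (hθρ.trans_le h1) (mem_ball_zero_iff.1 hv')
      have h4 := hΦG _ h2
      rw [h3] at h4
      rw [h4]
      refine ⟨(hGU _ h2).1, ?_⟩
      rw [ha _ h2, h3]

end Pool.Agent.H56.WP
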