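import Pool.Agent.H56.UD.DA

/-!
# Pull backs of windows: no attraction, and crossing of two windows

`noattr` ((2.0) of think 1841): an open set of small diameter which meets `J` is not mapped into itself by an iterate.
`full_img`: `φ` univalent on the unit disc, `T` compact in it with connected complement there: `(φ '' T)ᶜ` is connected.
`cross`: the curves `Φ (|x| = r)` and `Ψ (|β y| = r)` meet if none of the two domains is inside the other.
-/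

set_option autoImplicit false

open Filter Topology Metric Set MeasureTheory

namespace Pool.Agent.H56.WP

open Pool.Agent.H56.UD

variable {f : ℂ → ℂ} {U J P Cr : Set ℂ} {δ : ℝ} {η : ℂ → ℂ → ℂ} {ρ : ℝ}

theorem noattr (h : PS f U J P Cr δ η ρ) : ∃ d0 : ℝ, 0 < d0 ∧ ∀ (X : Set ℂ) (k : ℕ) (p : ℂ), IsOpen X → (X ∩ J).Nonempty →
    1 ≤ k → MapsTo (f^[k]) X X → X ⊆ ball p d0 → False := by
  obtain ⟨a, ha, b, hb, hab⟩ := h.Jt
  refine ⟨‖a - b‖ / 2, by have := norm_pos_iff.2 (sub_ne_zero.2 hab); linarith, ?_⟩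
  intro X k p hX hXJ hk hm hp
  obtain ⟨N, hN⟩ := h.leo X hX hXJ
  have hmN : ∀ n : ℕ, MapsTo (f^[k * n]) X X := by
    intro n
    rw [Function.iterate_mul]
    exact hm.iterate n
  have h1 : J ⊆ f^[k * N] '' (X ∩ J) := hN _ (Nat.le_mul_of_pos_left _ hk)
  have h2 : ∀ w ∈ J, w ∈ ball p (‖a - b‖ / 2) := by
    intro w hw
    obtain ⟨x, hx, rfl⟩ := h1 hw
    exact hp (hmN N hx.1)
  have h3 := h2 a ha
  have h4 := h2 b hb
  rw [mem_ball, dist_eq_norm] at h3 h4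
  have h5 : ‖a - b‖ ≤ ‖a - p‖ + ‖b - p‖ := by
    calc ‖a - b‖ = ‖(a - p) - (b - p)‖ := by congr 1; ring
      _ ≤ _ := norm_sub_le _ _
  linarith

/-- images of sets with connected complement in the unit disc have connected complement -/
theorem full_img {φ : ℂ → ℂ} (hd : DifferentiableOn ℂ φ (ball 0 1)) (hi : InjOn φ (ball 0 1)) {T : Set ℂ}
    (hT : IsCompact T) (hTb : T ⊆ ball 0 1) (hc : IsPreconnected (ball (0 : ℂ) 1 \ T)) : IsPreconnected (φ '' T)ᶜ := by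
  have hopen : IsOpen (φ '' ball 0 1) := by
    have := hd.analyticOnNhd isOpen_ball
    rcases this.is_constant_or_isOpen (convex_ball (0 : ℂ) 1).isPreconnected with ⟨w, hw⟩ | h1
    · exfalso
      have h0 : (0 : ℂ) ∈ ball (0 : ℂ) 1 := mem_ball_self one_pos
      have h2 : (1 / 2 : ℂ) ∈ ball (0 : ℂ) 1 := by
        rw [mem_ball_zero_iff]; norm_num
      have h3 := hi h0 h2 (by rw [hw 0 h0, hw _ h2])
      norm_num at h3
    · exact h1 _ subset_rfl isOpen_ball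
  have hTc : IsClosed (φ '' T) := (hT.image_of_continuousOn (hd.continuousOn.mono hTb)).isClosed
  have himg : IsPreconnected (φ '' (ball (0 : ℂ) 1 \ T)) := hc.image _ (hd.continuousOn.mono sdiff_subset)
  have hsub : φ '' (ball (0 : ℂ) 1 \ T) ⊆ (φ '' T)ᶜ := by
    rintro _ ⟨x, hx, rfl⟩ ⟨y, hy, he⟩
    have := hi (hTb hy) hx.1 he
    exact hx.2 (this ▸ hy)
  -- key: an open piece which misses the image of the disc is empty
  have key : ∀ O1 O2 : Set ℂ, IsOpen O1 → IsOpen O2 → (φ '' T)ᶜ ⊆ O1 ∪ O2 → Disjoint ((φ '' T)ᶜ ∩ O1) O2 →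
      φ '' (ball (0 : ℂ) 1 \ T) ⊆ O1 → ¬ ((φ '' T)ᶜ ∩ O2).Nonempty ∨ ¬ ((φ '' T)ᶜ ∩ O1).Nonempty := by
    intro O1 O2 h1 h2 hu hdj h3
    by_contra hcon
    push Not at hcon
    obtain ⟨hn2, hn1⟩ := hcon
    set A : Set ℂ := (φ '' T)ᶜ ∩ O2 with hA
    have hAo : IsOpen A := hTc.isOpen_compl.inter h2
    have hAb : Disjoint A (φ '' ball 0 1) := by
      rw [Set.disjoint_left]
      rintro w ⟨hw1, hw2⟩ ⟨x, hx, rfl⟩
      by_cases hxT : x ∈ T
      · exact hw1 ⟨x, hxT, rfl⟩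
      · have h4 := h3 ⟨x, ⟨hx, hxT⟩, rfl⟩
        exact (Set.disjoint_left.1 hdj) ⟨hw1, h4⟩ hw2
    -- the frontier of A lies in φ '' T
    have hfr : frontier A ⊆ φ '' T := by
      intro w hw
      by_contra hn
      rcases hu hn with h4 | h4
      · -- w in O1 ∩ complement: a neighbourhood is disjoint from A
        have h5 : w ∈ closure A := frontier_subset_closure hw
        rw [_root_.mem_closure_iff] at h5
        obtain ⟨p, hp1, hp2⟩ := h5 ((φ '' T)ᶜ ∩ O1) (hTc.isOpen_compl.inter h1) ⟨hn, h4⟩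
        exact (Set.disjoint_left.1 hdj) hp1 hp2.2
      · have h5 : w ∈ A := ⟨hn, h4⟩
        rw [hAo.frontier_eq] at hw
        exact hw.2 h5
    have hfe : (frontier A).Nonempty := by
      rw [nonempty_frontier_iff]
      refine ⟨hn2, ?_⟩
      intro h4
      obtain ⟨p, hp⟩ := hn1
      have : p ∈ A := by rw [h4]; exact mem_univ _
      exact (Set.disjoint_left.1 hdj) hp this.2
    obtain ⟨w, hw⟩ := hfe
    have h5 : w ∈ φ '' ball 0 1 := image_mono hTb (hfr hw)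
    have h6 := frontier_subset_closure hw
    rw [_root_.mem_closure_iff] at h6
    obtain ⟨p, hp1, hp2⟩ := h6 _ hopen h5
    exact (Set.disjoint_left.1 hAb) hp2 hp1
  rw [isPreconnected_iff_subset_of_disjoint]
  intro u v hu hv huv hdis
  have hdj : Disjoint ((φ '' T)ᶜ ∩ u) v := by
    rw [Set.disjoint_left]
    rintro w ⟨hw1, hw2⟩ hw3
    have : w ∈ (φ '' T)ᶜ ∩ (u ∩ v) := ⟨hw1, hw2, hw3⟩
    rw [hdis] at this
    exact this
  have hdj' : Disjoint ((φ '' T)ᶜ ∩ v) u := by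
    rw [Set.disjoint_left]
    rintro w ⟨hw1, hw2⟩ hw3
    exact (Set.disjoint_left.1 hdj) ⟨hw1, hw3⟩ hw2
  have himg2 := (isPreconnected_iff_subset_of_disjoint.1 himg) u v hu hv (hsub.trans huv) (by
    rw [← subset_empty_iff]
    rintro w ⟨hw1, hw2⟩
    have : w ∈ (φ '' T)ᶜ ∩ (u ∩ v) := ⟨hsub hw1, hw2⟩
    rw [hdis] at this
    exact this)
  have hfin : ¬ ((φ '' T)ᶜ ∩ v).Nonempty ∨ ¬ ((φ '' T)ᶜ ∩ u).Nonempty := by
    rcases himg2 with h1 | h1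
    · exact key u v hu hv huv hdj h1
    · exact (key v u hv hu (by rwa [union_comm]) hdj' h1).symm
  rcases hfin with h1 | h1
  · left
    intro w hw
    rcases huv hw with h2 | h2
    · exact h2
    · exact absurd ⟨w, hw, h2⟩ h1
  · right
    intro w hw
    rcases huv hw with h2 | h2
    · exact absurd ⟨w, hw, h2⟩ h1
    · exact h2

/-- the curves `Φ (|x| = r)`, `Ψ (|β y| = r)` meet -/
theorem cross {Φ Ψ β : ℂ → ℂ} {r : ℝ} (hΦd : DifferentiableOn ℂ Φ (ball 0 1)) (hΦi : InjOn Φ (ball 0 1))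
    (hΨd : DifferentiableOn ℂ Ψ (ball 0 1)) (hΨi : InjOn Ψ (ball 0 1)) (hr : 0 < r) (hr1 : r < 1)
    (hβ : ContinuousOn β (ball 0 1)) (hT1 : IsPreconnected {x : ℂ | x ∈ ball (0 : ℂ) 1 ∧ ‖β x‖ < r})
    (hT2 : IsPreconnected {x : ℂ | x ∈ ball (0 : ℂ) 1 ∧ r < ‖β x‖})
    (hK : IsCompact {x : ℂ | x ∈ ball (0 : ℂ) 1 ∧ ‖β x‖ ≤ r})
    (hcl : ∀ x ∈ ball (0 : ℂ) 1, ‖β x‖ = r → x ∈ closure {x : ℂ | x ∈ ball (0 : ℂ) 1 ∧ r < ‖β x‖})
    (hcom : ∃ x y : ℂ, ‖x‖ < r ∧ y ∈ ball (0 : ℂ) 1 ∧ ‖β y‖ < r ∧ Φ x = Ψ y)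
    (h1 : ¬ Φ '' ball 0 r ⊆ Ψ '' {x : ℂ | x ∈ ball (0 : ℂ) 1 ∧ ‖β x‖ < r})
    (h2 : ¬ Ψ '' {x : ℂ | x ∈ ball (0 : ℂ) 1 ∧ ‖β x‖ < r} ⊆ Φ '' ball 0 r) :
    ∃ x y : ℂ, ‖x‖ = r ∧ y ∈ ball (0 : ℂ) 1 ∧ ‖β y‖ = r ∧ Φ x = Ψ y := by
  by_contra hcon
  push Not at hcon
  set T : Set ℂ := {x : ℂ | x ∈ ball (0 : ℂ) 1 ∧ ‖β x‖ < r} with hT
  set T' : Set ℂ := {x : ℂ | x ∈ ball (0 : ℂ) 1 ∧ ‖β x‖ ≤ r} with hT'
  have hTb : T' ⊆ ball 0 1 := fun x hx => hx.1
  have hrb : closedBall (0 : ℂ) r ⊆ ball 0 1 := closedBall_subset_ball hr1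
  have hsb : sphere (0 : ℂ) r ⊆ ball 0 1 := sphere_subset_closedBall.trans hrb
  have hbb : ball (0 : ℂ) r ⊆ ball 0 1 := ball_subset_ball hr1.le
  -- open images
  have hop : ∀ (φ : ℂ → ℂ), DifferentiableOn ℂ φ (ball 0 1) → InjOn φ (ball 0 1) → ∀ s ⊆ ball (0 : ℂ) 1, IsOpen s →
      IsOpen (φ '' s) := by
    intro φ hd hi s hs hso
    have := hd.analyticOnNhd isOpen_ball
    rcases this.is_constant_or_isOpen (convex_ball (0 : ℂ) 1).isPreconnected with ⟨w, hw⟩ | h1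
    · exfalso
      have h0 : (0 : ℂ) ∈ ball (0 : ℂ) 1 := mem_ball_self one_pos
      have h2 : (1 / 2 : ℂ) ∈ ball (0 : ℂ) 1 := by
        rw [mem_ball_zero_iff]; norm_num
      have h3 := hi h0 h2 (by rw [hw 0 h0, hw _ h2])
      norm_num at h3
    · exact h1 _ hs hso
  have hAo : IsOpen (Φ '' ball 0 r) := hop Φ hΦd hΦi _ hbb isOpen_ball
  have hAc : IsCompact (Φ '' closedBall 0 r) := (isCompact_closedBall 0 r).image_of_continuousOn (hΦd.continuousOn.mono hrb)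
  have hBc : IsCompact (Ψ '' T') := hK.image_of_continuousOn (hΨd.continuousOn.mono hTb)
  -- the complement of the closed ball in the open set
  have hEx : IsPreconnected (Ψ '' T')ᶜ := by
    refine full_img hΨd hΨi hK hTb ?_
    have : ball (0 : ℂ) 1 \ T' = {x : ℂ | x ∈ ball (0 : ℂ) 1 ∧ r < ‖β x‖} := by
      ext x
      simp only [hT', Set.mem_sdiff, Set.mem_ofPred_eq, not_and, not_le]
      constructor
      · rintro ⟨h3, h4⟩; exact ⟨h3, h4 h3⟩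
      · rintro ⟨h3, h4⟩; exact ⟨h3, fun _ => h4⟩
    rw [this]
    exact hT2
  -- the circle
  have hSc : IsPreconnected (Φ '' sphere 0 r) := by
    have h3 : IsPreconnected (sphere (0 : ℂ) r) := by
      have := (isConnected_sphere (E := ℂ) (by simp [Complex.rank_real_complex]) (0 : ℂ) hr.le).isPreconnected
      exact this
    exact h3.image _ (hΦd.continuousOn.mono hsb)
  -- open set Ψ '' T: is T open?
  have hTo : Ψ '' T' \ Ψ '' T ⊆ Ψ '' {x : ℂ | x ∈ ball (0 : ℂ) 1 ∧ ‖β x‖ = r} := by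
    rintro _ ⟨⟨x, hx, rfl⟩, hn⟩
    refine ⟨x, ⟨hx.1, ?_⟩, rfl⟩
    rcases lt_or_eq_of_le hx.2 with h3 | h3
    · exact absurd ⟨x, ⟨hx.1, h3⟩, rfl⟩ hn
    · exact h3
  have hdis : ∀ w ∈ Φ '' sphere 0 r, w ∈ Ψ '' T' → w ∈ Ψ '' T := by
    rintro _ ⟨x, hx, rfl⟩ hw
    by_contra hn
    obtain ⟨y, hy, he⟩ := hTo ⟨hw, hn⟩
    exact hcon x y (mem_sphere_zero_iff_norm.1 hx) hy.1 hy.2 he.symm
  have hTopen : IsOpen T := by
    have : T = ball (0 : ℂ) 1 ∩ (fun x => ‖β x‖) ⁻¹' Iio r := by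
      ext x; rfl
    rw [this]
    exact hβ.norm.isOpen_inter_preimage isOpen_ball isOpen_Iio
  have hTs : T ⊆ T' := fun x hx => ⟨hx.1, hx.2.le⟩
  have hBo : IsOpen (Ψ '' T) := hop Ψ hΨd hΨi _ (fun x hx => hx.1) hTopen
  have hBs : Ψ '' T ⊆ Ψ '' T' := image_mono hTs
  obtain ⟨x0, y0, hx0, hy0, hy1, he0⟩ := hcom
  have hp0A : Φ x0 ∈ Φ '' ball 0 r := ⟨x0, mem_ball_zero_iff.2 hx0, rfl⟩
  have hp0B : Φ x0 ∈ Ψ '' T := ⟨y0, ⟨hy0, hy1⟩, he0.symm⟩
  have hbs : ball (0 : ℂ) r ⊆ closedBall 0 r := ball_subset_closedBall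
  have hAs : Φ '' ball 0 r ⊆ Φ '' closedBall 0 r := image_mono hbs
  have hcb : ∀ w ∈ Φ '' closedBall 0 r, w ∉ Φ '' sphere 0 r → w ∈ Φ '' ball 0 r := by
    rintro _ ⟨x, hx, rfl⟩ hn
    rcases lt_or_eq_of_le (mem_closedBall_zero_iff.1 hx) with h3 | h3
    · exact ⟨x, mem_ball_zero_iff.2 h3, rfl⟩
    · exact absurd ⟨x, mem_sphere_zero_iff_norm.2 h3, rfl⟩ hn
  have hAo' : IsOpen (Φ '' closedBall 0 r)ᶜ := hAc.isClosed.isOpen_compl
  have hBo' : IsOpen (Ψ '' T')ᶜ := hBc.isClosed.isOpen_compl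
  have hcase : Φ '' sphere 0 r ⊆ Ψ '' T ∨ Φ '' sphere 0 r ⊆ (Ψ '' T')ᶜ := by
    refine (isPreconnected_iff_subset_of_disjoint.1 hSc) _ _ hBo hBo' ?_ ?_
    · intro w hw
      by_cases h3 : w ∈ Ψ '' T'
      · exact Or.inl (hdis w hw h3)
      · exact Or.inr h3
    · rw [← subset_empty_iff]
      rintro w ⟨-, h3, h4⟩
      exact h4 (hBs h3)
  rcases hcase with h3 | h3
  · -- A ⊆ B
    apply h1
    intro p hp
    by_contra hn
    have hEA : ((Ψ '' T')ᶜ ∩ Φ '' ball 0 r).Nonempty := by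
      by_cases h4 : p ∈ Ψ '' T'
      · obtain ⟨x, hx, hxp⟩ := hTo ⟨h4, hn⟩
        have h5 := hcl x hx.1 hx.2
        have h6 : ContinuousAt Ψ x := (hΨd.differentiableAt (isOpen_ball.mem_nhds hx.1)).continuousAt
        have h7 : ∀ᶠ w in 𝓝 x, Ψ w ∈ Φ '' ball 0 r := by
          apply h6.eventually
          rw [hxp]
          exact hAo.mem_nhds hp
        obtain ⟨x', hx', hx''⟩ := mem_closure_iff_nhds.1 h5 _ h7
        refine ⟨Ψ x', ?_, hx'⟩
        rintro ⟨w, hw, he⟩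
        have := hΨi hw.1 hx''.1 he
        rw [this] at hw
        exact absurd hw.2 (not_le.2 hx''.2)
      · exact ⟨p, h4, hp⟩
    have hEo : ((Ψ '' T')ᶜ ∩ (Φ '' closedBall 0 r)ᶜ).Nonempty := by
      obtain ⟨R, hR⟩ := (hBc.union hAc).isBounded.subset_ball (0 : ℂ)
      have hw : ((|R| + 1 : ℝ) : ℂ) ∉ Ψ '' T' ∪ Φ '' closedBall 0 r := by
        intro h4
        have h5 := mem_ball_zero_iff.1 (hR h4)
        rw [Complex.norm_real, Real.norm_of_nonneg (by positivity)] at h5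
        have := le_abs_self R
        linarith
      exact ⟨_, fun h4 => hw (Or.inl h4), fun h4 => hw (Or.inr h4)⟩
    have hcov : (Ψ '' T')ᶜ ⊆ Φ '' ball 0 r ∪ (Φ '' closedBall 0 r)ᶜ := by
      intro w hw
      by_cases h4 : w ∈ Φ '' closedBall 0 r
      · left
        exact hcb w h4 fun h5 => hw (hBs (h3 h5))
      · exact Or.inr h4
    obtain ⟨w, hw1, hw2, hw3⟩ := hEx _ _ hAo hAo' hcov hEA hEo
    exact hw3 (hAs hw2)
  · apply h2
    have hcov : Ψ '' T ⊆ Φ '' ball 0 r ∪ (Φ '' closedBall 0 r)ᶜ := by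
      intro w hw
      by_cases h4 : w ∈ Φ '' closedBall 0 r
      · left
        exact hcb w h4 fun h5 => (h3 h5) (hBs hw)
      · exact Or.inr h4
    have hBpc : IsPreconnected (Ψ '' T) := hT1.image _ (hΨd.continuousOn.mono fun x hx => hx.1)
    refine hBpc.subset_left_of_subset_union hAo hAo' ?_ hcov ⟨_, hp0B, hp0A⟩
    rw [Set.disjoint_left]
    intro w hw hw'
    exact hw' (hAs hw)

end Pool.Agent.H56.WP
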